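import Mathlib

namespace Pool.Agent.H.MP_93f147_gt

open Set Filter Topology

noncomputable section

variable {W : Type} [LinearOrder W]

/-- `γ` is the first place where `b` and `b'` differ. -/
def Dl (b b' : W → Bool) (γ : W) : Prop := b γ ≠ b' γ ∧ ∀ δ < γ, b δ = b' δ

theorem Dl.trans {b b' b'' : W → Bool} {γ γ' : W} (h : Dl b b' γ) (h' : Dl b' b'' γ')
    (hne : γ ≠ γ') : Dl b b'' γ ∨ Dl b b'' γ' := by
  rcases lt_or_gt_of_ne hne with hlt | hlt
  · exact Or.inl ⟨h'.2 γ hlt ▸ h.1, fun δ hδ => (h.2 δ hδ).trans (h'.2 δ (hδ.trans hlt))⟩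
  · exact Or.inr ⟨(h.2 γ' hlt).symm ▸ h'.1, fun δ hδ => (h.2 δ (hδ.trans hlt)).trans (h'.2 δ hδ)⟩

theorem Dl.unique {b b' : W → Bool} {γ γ' : W} (h : Dl b b' γ) (h' : Dl b b' γ') : γ = γ' := by
  rcases lt_trichotomy γ γ' with hlt | hlt | hlt
  · exact absurd (h'.2 γ hlt) h.1
  · exact hlt
  · exact absurd (h.2 γ' hlt) h'.1

theorem exists_Dl [WellFoundedLT W] {b b' : W → Bool} (h : b ≠ b') : ∃ γ, Dl b b' γ := by
  obtain ⟨γ, hγ, hmin⟩ := (wellFounded_lt (α := W)).has_min {γ | b γ ≠ b' γ}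
    (Function.ne_iff.1 h)
  exact ⟨γ, hγ, fun δ hδ => by_contra fun hne => hmin δ hne hδ⟩

def Close (n : ℕ) (c c' : ℕ → Bool) : Prop := ∀ t < n, c' t = c t

theorem Close.mono {m n : ℕ} {c c' : ℕ → Bool} (h : Close m c c') (hnm : n ≤ m) : Close n c c' :=
  fun t ht => h t (ht.trans_le hnm)

theorem Close.trans {n : ℕ} {c c' c'' : ℕ → Bool} (h : Close n c c') (h' : Close n c' c'') :
    Close n c c'' := fun t ht => (h' t ht).trans (h t ht)

theorem ev_sep (c d : ℕ → Bool) : ∀ᶠ m in atTop, Close m c d → d = c := by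
  by_cases h : d = c
  · exact Eventually.of_forall fun _ _ => h
  · obtain ⟨t, ht⟩ := Function.ne_iff.1 h
    filter_upwards [eventually_gt_atTop t] with m hm hc
    exact absurd (hc t hm) ht

theorem ev_all {α : Type*} {l : Filter α} {k : ℕ} {p : ℕ → α → Prop}
    (h : ∀ i < k, ∀ᶠ x in l, p i x) : ∀ᶠ x in l, ∀ i < k, p i x :=
  (eventually_all_finite (finite_lt_nat k)).2 h

/-- The points of the space. -/
@[ext] structure Sp (e : W → ℕ → Bool) : Type where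
  b : W → Bool
  k : ℕ
  r : ℕ → ℕ → Bool

variable {e : W → ℕ → Bool}

def U (n : ℕ) (p : Sp e) : Set (Sp e) :=
  {q | (q.k = p.k ∧ q.b = p.b ∧ ∀ i < p.k + n, Close n (p.r i) (q.r i)) ∨
    (q.k < p.k ∧ (∀ i < q.k, Close n (p.r i) (q.r i)) ∧ ∃ γ, Dl p.b q.b γ ∧
      (∃ i < p.k, Close n (p.r i) (e γ)) ∧ ∀ i < p.k, e γ ≠ p.r i)}

theorem U_self (n : ℕ) (p : Sp e) : p ∈ U n p := Or.inl ⟨rfl, rfl, fun _ _ _ _ => rfl⟩

theorem U_anti {m n : ℕ} (h : n ≤ m) (p : Sp e) : U m p ⊆ U n p := by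
  rintro q (⟨h1, h2, h3⟩ | ⟨h1, h2, γ, h3, ⟨i, hi, h4⟩, h5⟩)
  · exact Or.inl ⟨h1, h2, fun i hi => (h3 i (by omega)).mono h⟩
  · exact Or.inr ⟨h1, fun i hi => (h2 i hi).mono h, γ, h3, ⟨i, hi, h4.mono h⟩, h5⟩

instance : TopologicalSpace (Sp e) where
  IsOpen O := ∀ p ∈ O, ∃ n, U n p ⊆ O
  isOpen_univ := fun _ _ => ⟨0, subset_univ _⟩
  isOpen_inter := by
    rintro s t hs ht p ⟨hps, hpt⟩
    obtain ⟨n, hn⟩ := hs p hps
    obtain ⟨m, hm⟩ := ht p hpt
    exact ⟨max n m, subset_inter ((U_anti (le_max_left _ _) p).trans hn)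
      ((U_anti (le_max_right _ _) p).trans hm)⟩
  isOpen_sUnion := by
    rintro s hs p ⟨O, hO, hp⟩
    obtain ⟨n, hn⟩ := hs O hO p hp
    exact ⟨n, hn.trans (subset_sUnion_of_mem hO)⟩

theorem isOpen_iff {O : Set (Sp e)} : IsOpen O ↔ ∀ p ∈ O, ∃ n, U n p ⊆ O := Iff.rfl

theorem isOpen_U (n : ℕ) (p : Sp e) : IsOpen (U n p) := by
  refine isOpen_iff.2 fun q hq => ?_
  have hA : ∀ᶠ m in atTop, ∀ i < p.k, ∀ j < q.k, Close m (q.r j) (p.r i) → p.r i = q.r j :=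
    ev_all fun i _ => ev_all fun j _ => ev_sep _ _
  rcases hq with ⟨h1, h2, h3⟩ | ⟨h1, h2, γ, h3, h4, h5⟩
  · obtain ⟨m, hm1, hm2⟩ := (hA.and (eventually_ge_atTop n)).exists
    refine ⟨m, ?_⟩
    rintro z (⟨g1, g2, g3⟩ | ⟨g1, g2, δ, g3, ⟨j, hj, g4⟩, g5⟩)
    · exact Or.inl ⟨g1.trans h1, g2.trans h2,
        fun i hi => (h3 i hi).trans ((g3 i (by omega)).mono hm2)⟩
    · refine Or.inr ⟨h1 ▸ g1, fun i hi => (h3 i (by omega)).trans ((g2 i hi).mono hm2), δ,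
        h2 ▸ g3, ⟨j, h1 ▸ hj, (h3 j (by omega)).trans (g4.mono hm2)⟩, fun i hi he => ?_⟩
      exact g5 j hj (he.trans (hm1 i hi j hj (he ▸ g4)))
  · have hB : ∀ᶠ m in atTop, ∀ j < q.k, Close m (q.r j) (e γ) → e γ = q.r j :=
      ev_all fun j _ => ev_sep _ _
    obtain ⟨m, ⟨hm1, hm3⟩, hm2⟩ := ((hA.and hB).and (eventually_ge_atTop n)).exists
    refine ⟨m, ?_⟩
    rintro z (⟨g1, g2, g3⟩ | ⟨g1, g2, δ, g3, ⟨j, hj, g4⟩, g5⟩)
    · exact Or.inr ⟨g1 ▸ h1, fun i hi => (h2 i (g1 ▸ hi)).trans ((g3 i (by omega)).mono hm2), γ,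
        g2 ▸ h3, h4, h5⟩
    · have hne : γ ≠ δ := by
        rintro rfl
        exact g5 j hj (hm3 j hj g4)
      refine Or.inr ⟨g1.trans h1,
        fun i hi => (h2 i (hi.trans g1)).trans ((g2 i hi).mono hm2), ?_⟩
      rcases h3.trans g3 hne with h | h
      · exact ⟨γ, h, h4, h5⟩
      · refine ⟨δ, h, ⟨j, hj.trans h1, (h2 j hj).trans (g4.mono hm2)⟩, fun i hi he => ?_⟩
        exact g5 j hj (he.trans (hm1 i hi j hj (he ▸ g4)))

theorem basis (p : Sp e) : (𝓝 p).HasBasis (fun _ : ℕ => True) (fun n => U n p) := by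
  refine ⟨fun s => ⟨fun hs => ?_, fun ⟨n, _, hn⟩ => ?_⟩⟩
  · obtain ⟨t, hts, ht, hp⟩ := mem_nhds_iff.1 hs
    obtain ⟨n, hn⟩ := isOpen_iff.1 ht p hp
    exact ⟨n, trivial, hn.trans hts⟩
  · exact mem_of_superset ((isOpen_U n p).mem_nhds (U_self n p)) hn

instance : FirstCountableTopology (Sp e) :=
  ⟨fun p => (HasCountableBasis.mk (basis p) (to_countable _)).isCountablyGenerated⟩

theorem sep {p q : Sp e} (h : ∀ n, q ∈ U n p) : q = p := by
  rcases h 0 with ⟨h1, h2, -⟩ | ⟨h1, -, γ, h3, -, h5⟩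
  · refine Sp.ext h2 h1 (funext fun i => funext fun t => ?_)
    rcases h (i + t + 1) with ⟨-, -, g3⟩ | ⟨g1, -⟩
    · exact g3 i (by omega) t (by omega)
    · omega
  · have hB : ∀ᶠ m in atTop, ∀ j < p.k, Close m (p.r j) (e γ) → e γ = p.r j :=
      ev_all fun j _ => ev_sep _ _
    obtain ⟨m, hm⟩ := hB.exists
    rcases h m with ⟨g1, -⟩ | ⟨-, -, δ, g3, ⟨j, hj, g4⟩, -⟩
    · omega
    · obtain rfl := h3.unique g3
      exact absurd (hm j hj g4) (h5 j hj)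

instance : T1Space (Sp e) where
  t1 q := ⟨isOpen_iff.2 fun p hp => by
    by_contra hcon
    refine hp (Eq.symm (sep fun n => by_contra fun hn => hcon ⟨n, fun z hz hzq => hn ?_⟩))
    rwa [← mem_singleton_iff.1 hzq]⟩

theorem ultra_bool {α : Type*} (𝒰 : Ultrafilter α) (φ : α → Bool) : ∃ v, ∀ᶠ x in 𝒰, φ x = v := by
  rcases 𝒰.em (fun x => φ x = true) with h | h
  · exact ⟨true, h⟩
  · exact ⟨false, h.mono fun x hx => by simpa using hx⟩

theorem ultra_conv [WellFoundedLT W] [Nonempty W] (he : Function.Injective e)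
    (𝒰 : Ultrafilter (Sp e)) (k : ℕ) (hk : ∀ᶠ p : Sp e in 𝒰, p.k = k) :
    ∃ x : Sp e, (𝒰 : Filter (Sp e)) ≤ 𝓝 x := by
  classical
  choose b hb using fun γ => ultra_bool 𝒰 (fun p => p.b γ)
  choose r hr using fun i t => ultra_bool 𝒰 (fun p => p.r i t)
  have hrc : ∀ n i, ∀ᶠ p : Sp e in 𝒰, Close n (r i) (p.r i) := fun n i => ev_all fun t _ => hr i t
  rcases 𝒰.em (fun p => p.b = b) with h | h
  · refine ⟨⟨b, k, r⟩, (basis _).ge_iff.2 fun n _ => ?_⟩
    filter_upwards [hk, h, ev_all (k := k + n) fun i _ => hrc n i] with p h1 h2 h3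
    exact Or.inl ⟨h1, h2, h3⟩
  · have hD : ∀ p : Sp e, ∃ γ, p.b ≠ b → Dl b p.b γ := by
      intro p
      by_cases hp : p.b = b
      · exact ⟨Classical.arbitrary W, fun h => absurd hp h⟩
      · obtain ⟨γ, hγ⟩ := exists_Dl (Ne.symm hp)
        exact ⟨γ, fun _ => hγ⟩
    choose D hD using hD
    choose s hs using fun t => ultra_bool 𝒰 (fun p => e (D p) t)
    have hne : ∀ c, ∀ᶠ p : Sp e in 𝒰, e (D p) ≠ c := by
      intro c
      by_cases hc : ∃ γ, e γ = c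
      · obtain ⟨γ, rfl⟩ := hc
        filter_upwards [h, hb γ] with p h1 h2 h3
        have := (hD p h1).1
        rw [he h3] at this
        exact this h2.symm
      · exact Eventually.of_forall fun p h => hc ⟨_, h⟩
    refine ⟨⟨b, k + 1, Function.update r k s⟩, (basis _).ge_iff.2 fun n _ => ?_⟩
    filter_upwards [hk, h, ev_all (k := k) fun i _ => hrc n i,
      ev_all (k := n) fun t _ => hs t,
      ev_all (k := k + 1) fun i _ => hne (Function.update r k s i)] with p h1 h2 h3 h4 h5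
    refine Or.inr ⟨by simp [h1], fun i hi => ?_, D p, hD p h2, ⟨k, by simp, ?_⟩, h5⟩
    · have hik : i < k := h1 ▸ hi
      simp only [Function.update_of_ne hik.ne]
      exact h3 i hik
    · simp only [Function.update_self]
      exact h4

theorem lindelof [WellFoundedLT W] [Nonempty W] (he : Function.Injective e) :
    LindelofSpace (Sp e) := by
  refine ⟨fun f _ _ _ => ?_⟩
  have : ∃ k, ∃ᶠ p in f, p.k = k := by
    by_contra hcon
    simp only [not_exists, not_frequently] at hcon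
    obtain ⟨p, hp⟩ := (eventually_countable_forall.2 hcon).exists
    exact hp p.k rfl
  obtain ⟨k, hk⟩ := this
  have : (f ⊓ 𝓟 {p | p.k = k}).NeBot := frequently_iff_neBot.1 hk
  obtain ⟨𝒰, h𝒰⟩ := Ultrafilter.exists_le (f ⊓ 𝓟 {p | p.k = k})
  obtain ⟨x, hx⟩ := ultra_conv he 𝒰 k (le_principal_iff.1 (h𝒰.trans inf_le_right))
  exact ⟨x, mem_univ _, (ClusterPt.of_le_nhds hx).mono (h𝒰.trans inf_le_left)⟩

theorem main : ∃ (X : Type) (_ : TopologicalSpace X), T1Space X ∧ FirstCountableTopology X ∧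
    LindelofSpace X ∧ Cardinal.continuum < Cardinal.mk X := by
  let W := Cardinal.continuum.{0}.ord.ToType
  have hW : Cardinal.mk W = Cardinal.continuum := Cardinal.mk_ord_toType _
  obtain ⟨e⟩ : Nonempty (W ≃ (ℕ → Bool)) := Cardinal.eq.1 (by rw [hW]; simp)
  have : Nonempty W := ⟨e.symm default⟩
  refine ⟨Sp (W := W) e, inferInstance, inferInstance, inferInstance, lindelof e.injective, ?_⟩
  have h1 : Cardinal.mk (W → Bool) ≤ Cardinal.mk (Sp (W := W) e) :=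
    Cardinal.mk_le_of_injective (f := fun b => ⟨b, 0, default⟩) fun b b' h => congrArg Sp.b h
  refine lt_of_lt_of_le ?_ h1
  simp only [Cardinal.mk_pi, Cardinal.mk_bool, Cardinal.prod_const, Cardinal.lift_id, hW]
  simpa using Cardinal.cantor Cardinal.continuum.{0}

end

end Pool.Agent.H.MP_93f147_gt
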